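import Pool.Agent.WAP.StmtsC
import Pool.Agent.Helper32_WAP.Add

/-!
# CPH: pigeonhole (squad WAP, helper57)
-/

set_option autoImplicit false

namespace Pool.Agent.WAP.H57

open Pool.Agent.WAP Pool.Agent.WAP.C Pool.Agent.WAP.H32 Classical

/-- points with a large coordinate are near the point at infinity -/
theorem nO_of_large {F : Type} [NormedField F] {r : ℝ} (hr : 0 < r) {P : Pt (1 : F)}
    (h : 2 + 2 / r ^ 2 < ‖cX P‖) : nO r P := by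
  have hr2 : 0 < r ^ 2 := by positivity
  have h0 : 0 < 2 / r ^ 2 := by positivity
  have hX2 : 2 < ‖cX P‖ := by linarith
  have h2r : 2 < ‖cX P‖ * r ^ 2 := by
    have h1 : 2 / r ^ 2 < ‖cX P‖ := by linarith
    exact (div_lt_iff₀ hr2).1 h1
  refine Or.inr ⟨by linarith, ?_⟩
  have e : cY P ^ 2 = cX P ^ 3 - (1 : F) ^ 2 * cX P := eqn
  have e1 : cz P ^ 2 * cY P ^ 2 = cX P ^ 2 ∨ cz P = 0 := by
    by_cases hY : cY P = 0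
    · right
      unfold cz
      rw [hY, div_zero]
    · left
      unfold cz
      field_simp
  rcases e1 with e1 | e1
  · have hX : cX P ≠ 0 := by
      intro h
      rw [h, norm_zero] at hX2
      linarith
    have e2 : cz P ^ 2 * (cX P ^ 2 - 1) = cX P := by
      have h3 : cX P * (cz P ^ 2 * (cX P ^ 2 - 1)) = cX P * cX P := by
        rw [e] at e1
        linear_combination e1
      exact mul_left_cancel₀ hX h3
    have e3 : ‖cz P‖ ^ 2 * ‖cX P ^ 2 - 1‖ = ‖cX P‖ := by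
      rw [← norm_pow, ← norm_mul, e2]
    have h4 : ‖cX P‖ ^ 2 - 1 ≤ ‖cX P ^ 2 - 1‖ := by
      have : ‖cX P ^ 2‖ - ‖(1 : F)‖ ≤ ‖cX P ^ 2 - 1‖ := norm_sub_norm_le _ _
      rwa [norm_pow, norm_one] at this
    have h5 : 0 ≤ ‖cz P‖ := norm_nonneg _
    have h6 : ‖cz P‖ ^ 2 * (‖cX P‖ ^ 2 - 1) ≤ ‖cX P‖ := by
      calc ‖cz P‖ ^ 2 * (‖cX P‖ ^ 2 - 1) ≤ ‖cz P‖ ^ 2 * ‖cX P ^ 2 - 1‖ :=
            mul_le_mul_of_nonneg_left h4 (by positivity)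
        _ = ‖cX P‖ := e3
    by_contra hc
    rw [not_le] at hc
    have h7 : r ^ 2 < ‖cz P‖ ^ 2 := by nlinarith
    have h8 : ‖cX P‖ ^ 2 / 2 ≤ ‖cX P‖ ^ 2 - 1 := by nlinarith
    have h9 : r ^ 2 * (‖cX P‖ ^ 2 / 2) < ‖cz P‖ ^ 2 * (‖cX P‖ ^ 2 - 1) := by
      have h10 : 0 < ‖cX P‖ ^ 2 / 2 := by positivity
      calc r ^ 2 * (‖cX P‖ ^ 2 / 2) < ‖cz P‖ ^ 2 * (‖cX P‖ ^ 2 / 2) :=
            mul_lt_mul_of_pos_right h7 h10
        _ ≤ ‖cz P‖ ^ 2 * (‖cX P‖ ^ 2 - 1) := mul_le_mul_of_nonneg_left h8 (by positivity)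
    have h11 : r ^ 2 * (‖cX P‖ ^ 2 / 2) = (‖cX P‖ * r ^ 2) * (‖cX P‖ / 2) := by ring
    rw [h11] at h9
    have h12 : 2 * (‖cX P‖ / 2) < (‖cX P‖ * r ^ 2) * (‖cX P‖ / 2) :=
      mul_lt_mul_of_pos_right h2r (by linarith)
    linarith
  · rw [e1, norm_zero]
    exact hr.le

theorem cph (cdf : CdfStmt) (cxf : CxfStmt) : CphStmt := by
  intro F _ _ hF S hS r hr
  set B : ℝ := 2 + 2 / r ^ 2 with hB
  have hB0 : 2 ≤ B := by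
    have : 0 < 2 / r ^ 2 := by positivity
    linarith
  by_cases hbig : ∃ P ∈ S, P ≠ 0 ∧ B < ‖cX P‖
  · obtain ⟨P, h1, h2, h3⟩ := hbig
    exact ⟨P, h1, h2, nO_of_large hr h3⟩
  push Not at hbig
  set B2 : ℝ := B ^ 3 + B + 1 with hB2
  have hBB : B ≤ B2 := by
    have : 0 ≤ B ^ 3 := by positivity
    linarith
  obtain ⟨η, hη, hcd⟩ := cdf F hF B2 r hr
  set A : Set (Pt (1 : F)) := (S : Set (Pt (1 : F))) \ {0} with hA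
  have hAinf : A.Infinite := hS.sdiff (Set.finite_singleton 0)
  have hinj : Set.InjOn (fun P : Pt (1 : F) => (cX P, cY P)) A := by
    intro P hP Q hQ hPQ
    rw [Prod.mk.injEq] at hPQ
    exact ext_pt hP.2 hQ.2 hPQ.1 hPQ.2
  have hbd : ∀ p ∈ (fun P : Pt (1 : F) => (cX P, cY P)) '' A, ‖p.1‖ ≤ B2 ∧ ‖p.2‖ ≤ B2 := by
    rintro p ⟨P, hP, rfl⟩
    have h1 : ‖cX P‖ ≤ B := hbig P hP.1 hP.2
    refine ⟨h1.trans hBB, ?_⟩
    have e : cY P ^ 2 = cX P ^ 3 - (1 : F) ^ 2 * cX P := eqn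
    have h0 : 0 ≤ ‖cX P‖ := norm_nonneg _
    have h2 : ‖cY P‖ ^ 2 ≤ ‖cX P‖ ^ 3 + ‖cX P‖ := by
      rw [← norm_pow, e, one_pow, one_mul]
      refine (norm_sub_le _ _).trans ?_
      rw [norm_pow]
    have h3 : ‖cX P‖ ^ 3 ≤ B ^ 3 := pow_le_pow_left₀ h0 h1 3
    show ‖cY P‖ ≤ B2
    nlinarith [sq_nonneg (‖cY P‖ - 1), norm_nonneg (cY P)]
  obtain ⟨p, ⟨P, hP, rfl⟩, q, ⟨Q, hQ, rfl⟩, hpq, h1, h2⟩ :=
    (cxf F hF).2.2.2.1 _ B2 η (hAinf.image hinj) hbd hη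
  have hPQ : P ≠ Q := fun h => hpq (by rw [h])
  refine ⟨P - Q, S.sub_mem hP.1 hQ.1, sub_ne_zero.2 hPQ, ?_⟩
  exact hcd P Q hP.2 hQ.2 hPQ (hbd _ ⟨P, hP, rfl⟩).1 (hbd _ ⟨Q, hQ, rfl⟩).1 h1 h2

end Pool.Agent.WAP.H57
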