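import Pool.Agent.WAP.StmtsC
import Pool.Agent.Helper32_WAP.Add

/-!
# ZES: addition near the point at infinity (squad WAP, helper57)
-/

set_option autoImplicit false

namespace Pool.Agent.WAP.H57

open Pool.Agent.WAP Pool.Agent.WAP.C Pool.Agent.WAP.H32 Classical

section
variable {F : Type} [NormedField F]

/-- `w = z ^ 3 - z * w ^ 2` -/
theorem rel_w {P : Pt (1 : F)} (hY : cY P ≠ 0) :
    1 / cY P = cz P ^ 3 - cz P * (1 / cY P) ^ 2 := by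
  have e : cY P ^ 2 = cX P ^ 3 - (1 : F) ^ 2 * cX P := eqn
  unfold cz
  field_simp
  linear_combination e

theorem bd_w {r : ℝ} (hr : r ≤ 1 / 10) {z w : F} (hz : ‖z‖ ≤ r) (hw : ‖w‖ ≤ ‖z‖)
    (e : w = z ^ 3 - z * w ^ 2) : ‖w‖ ≤ 102 / 100 * r ^ 3 := by
  have h0 : 0 ≤ ‖z‖ := norm_nonneg z
  have h0' : 0 ≤ ‖w‖ := norm_nonneg w
  have hr0 : 0 ≤ r := h0.trans hz
  have h1 : ‖w‖ ≤ ‖z‖ ^ 3 + ‖z‖ * ‖w‖ ^ 2 := by
    calc ‖w‖ = ‖z ^ 3 - z * w ^ 2‖ := congrArg _ e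
      _ ≤ ‖z ^ 3‖ + ‖z * w ^ 2‖ := norm_sub_le _ _
      _ = ‖z‖ ^ 3 + ‖z‖ * ‖w‖ ^ 2 := by rw [norm_pow, norm_mul, norm_pow]
  have h2 : ‖z‖ ^ 3 ≤ r ^ 3 := pow_le_pow_left₀ h0 hz 3
  have h3 : ‖z‖ * ‖w‖ ≤ 1 / 100 := by nlinarith
  have h4 : ‖z‖ * ‖w‖ ^ 2 ≤ 1 / 100 * ‖w‖ := by nlinarith
  have h5 : 0 ≤ r ^ 3 := by positivity
  nlinarith

/-- the coordinates near the point at infinity -/
theorem near {r : ℝ} (hr : r ≤ 1 / 10) {P : Pt (1 : F)} (h1 : 1 < ‖cX P‖)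
    (h2 : ‖cz P‖ ≤ r) : cY P ≠ 0 ∧ ‖1 / cY P‖ ≤ 102 / 100 * r ^ 3 := by
  have e : cY P ^ 2 = cX P ^ 3 - (1 : F) ^ 2 * cX P := eqn
  have hX : cX P ≠ 0 := by
    intro h
    rw [h, norm_zero] at h1
    linarith
  have hY : cY P ≠ 0 := by
    intro h
    have h3 : cX P * (cX P ^ 2 - 1) = 0 := by
      rw [h] at e
      linear_combination -e
    rcases mul_eq_zero.1 h3 with h4 | h4
    · exact hX h4
    · have h5 : ‖cX P‖ ^ 2 = 1 := by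
        rw [← norm_pow, sub_eq_zero.1 h4, norm_one]
      nlinarith
  refine ⟨hY, bd_w hr h2 ?_ (rel_w hY)⟩
  have h6 : cz P = cX P * (1 / cY P) := by
    unfold cz
    ring
  have h7 : 0 ≤ ‖1 / cY P‖ := norm_nonneg _
  rw [h6, norm_mul]
  nlinarith

theorem nO_mono {r s : ℝ} (h : r ≤ s) {P : Pt (1 : F)} (hP : nO r P) : nO s P := by
  rcases hP with hP | hP
  · exact Or.inl hP
  · exact Or.inr ⟨hP.1, hP.2.trans h⟩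

theorem est {r : ℝ} (hr0 : 0 < r) (hr : r ≤ 1 / 10) {a b u v : F} (ha : ‖a‖ ≤ r)
    (hb : ‖b‖ ≤ r) (hu : ‖u‖ ≤ 102 / 100 * r ^ 3) (hv : ‖v‖ ≤ 102 / 100 * r ^ 3) {D α β : F}
    (hD : D = 1 + b * (u + v)) (hα : α = (a ^ 2 + a * b + b ^ 2 - u ^ 2) / D)
    (hβ : β = u - α * a) :
    D ≠ 0 ∧ ‖α‖ ≤ 31 / 10 * r ^ 2 ∧ ‖β‖ ≤ 42 / 10 * r ^ 3 ∧ 1 - α ^ 2 ≠ 0 ∧
      ‖2 * α * β / (1 - α ^ 2)‖ ≤ r ^ 3 := by
  have h0a : 0 ≤ ‖a‖ := norm_nonneg a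
  have h0b : 0 ≤ ‖b‖ := norm_nonneg b
  have h0u : 0 ≤ ‖u‖ := norm_nonneg u
  have r2 : r ^ 2 ≤ 1 / 100 := by nlinarith
  have r2' : 0 < r ^ 2 := by positivity
  have r3' : 0 < r ^ 3 := by positivity
  have r3 : r ^ 3 ≤ 1 / 1000 := by
    have : r ^ 3 = r ^ 2 * r := by ring
    rw [this]
    nlinarith
  have r3a : r ^ 3 ≤ 1 / 10 * r ^ 2 := by
    have : r ^ 3 = r ^ 2 * r := by ring
    rw [this]
    nlinarith
  -- D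
  have hD1 : ‖D - 1‖ ≤ 1 / 1000 := by
    have e : D - 1 = b * (u + v) := by rw [hD]; ring
    rw [e, norm_mul]
    have h1 : ‖u + v‖ ≤ 204 / 100 * r ^ 3 := (norm_add_le _ _).trans (by linarith)
    have h2 : ‖b‖ * ‖u + v‖ ≤ r * (204 / 100 * r ^ 3) :=
      mul_le_mul hb h1 (norm_nonneg _) hr0.le
    nlinarith
  have hD2 : 999 / 1000 ≤ ‖D‖ := by
    have h1 : ‖(1 : F)‖ ≤ ‖D‖ + ‖D - 1‖ := by
      have : (1 : F) = D - (D - 1) := by ring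
      calc ‖(1 : F)‖ = ‖D - (D - 1)‖ := congrArg _ this
        _ ≤ ‖D‖ + ‖D - 1‖ := norm_sub_le _ _
    rw [norm_one] at h1
    linarith
  have hD0 : D ≠ 0 := by
    intro h
    rw [h, norm_zero] at hD2
    linarith
  have hDp : 0 < ‖D‖ := by linarith
  -- α
  have hn : ‖a ^ 2 + a * b + b ^ 2 - u ^ 2‖ ≤ 301 / 100 * r ^ 2 := by
    have h1 : ‖a ^ 2 + a * b + b ^ 2 - u ^ 2‖ ≤ ‖a‖ ^ 2 + ‖a‖ * ‖b‖ + ‖b‖ ^ 2 + ‖u‖ ^ 2 := by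
      calc ‖a ^ 2 + a * b + b ^ 2 - u ^ 2‖ ≤ ‖a ^ 2 + a * b + b ^ 2‖ + ‖u ^ 2‖ := norm_sub_le _ _
        _ ≤ ‖a ^ 2 + a * b‖ + ‖b ^ 2‖ + ‖u ^ 2‖ := by gcongr; exact norm_add_le _ _
        _ ≤ ‖a ^ 2‖ + ‖a * b‖ + ‖b ^ 2‖ + ‖u ^ 2‖ := by gcongr; exact norm_add_le _ _
        _ = _ := by simp only [norm_pow, norm_mul]
    have h2 : ‖a‖ ^ 2 ≤ r ^ 2 := pow_le_pow_left₀ h0a ha 2
    have h3 : ‖b‖ ^ 2 ≤ r ^ 2 := pow_le_pow_left₀ h0b hb 2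
    have h4 : ‖a‖ * ‖b‖ ≤ r * r := mul_le_mul ha hb h0b hr0.le
    have h5 : ‖u‖ ≤ 102 / 1000 * r ^ 2 := by linarith
    have h5' : ‖u‖ ≤ 102 / 100000 := by linarith
    have h6 : ‖u‖ ^ 2 ≤ 1 / 100 * r ^ 2 := by nlinarith
    nlinarith
  have hα1 : ‖α‖ ≤ 302 / 100 * r ^ 2 := by
    rw [hα, norm_div, div_le_iff₀ hDp]
    nlinarith
  have h0α : 0 ≤ ‖α‖ := norm_nonneg α
  -- β
  have hβ1 : ‖β‖ ≤ 405 / 100 * r ^ 3 := by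
    have h1 : ‖β‖ ≤ ‖u‖ + ‖α‖ * ‖a‖ := by
      rw [hβ, ← norm_mul]
      exact norm_sub_le _ _
    have h2 : ‖α‖ * ‖a‖ ≤ 302 / 100 * r ^ 2 * r := mul_le_mul hα1 ha h0a (by positivity)
    nlinarith
  have h0β : 0 ≤ ‖β‖ := norm_nonneg β
  -- 1 - α ^ 2
  have hα2 : ‖α‖ ^ 2 ≤ 1 / 1000 := by nlinarith
  have h1 : 999 / 1000 ≤ ‖1 - α ^ 2‖ := by
    have h2 : ‖(1 : F)‖ ≤ ‖1 - α ^ 2‖ + ‖α ^ 2‖ := by
      have : (1 : F) = (1 - α ^ 2) + α ^ 2 := by ring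
      calc ‖(1 : F)‖ = ‖(1 - α ^ 2) + α ^ 2‖ := congrArg _ this
        _ ≤ _ := norm_add_le _ _
    rw [norm_one, norm_pow] at h2
    linarith
  have h2 : 1 - α ^ 2 ≠ 0 := by
    intro h
    rw [h, norm_zero] at h1
    linarith
  refine ⟨hD0, by linarith, by linarith, h2, ?_⟩
  have h3 : 0 < ‖1 - α ^ 2‖ := by linarith
  rw [norm_div, div_le_iff₀ h3, norm_mul, norm_mul]
  have h4 : ‖(2 : F)‖ ≤ 2 := by
    have : (2 : F) = 1 + 1 := by norm_num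
    rw [this]
    refine (norm_add_le _ _).trans ?_
    rw [norm_one]
    norm_num
  have h5 : ‖α‖ * ‖β‖ ≤ 302 / 100 * r ^ 2 * (405 / 100 * r ^ 3) :=
    mul_le_mul hα1 hβ1 h0β (by positivity)
  have h6 : ‖α‖ * ‖β‖ ≤ 13 / 100 * r ^ 3 := by
    refine h5.trans ?_
    have : 302 / 100 * r ^ 2 * (405 / 100 * r ^ 3) = (302 / 100 * (405 / 100) * r ^ 2) * r ^ 3 := by
      ring
    rw [this]
    exact mul_le_mul_of_nonneg_right (by linarith) r3'.le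
  have h7 : ‖(2 : F)‖ * ‖α‖ * ‖β‖ ≤ 2 * (13 / 100 * r ^ 3) := by
    rw [mul_assoc]
    exact mul_le_mul h4 h6 (mul_nonneg h0α h0β) (by norm_num)
  nlinarith

end

theorem zes (cza : CzaStmt) (cxf : CxfStmt) : ZesStmt := by
  intro F _ _ hF r hr0 hr P Q hP hQ
  have h2 : (2 : F) ≠ 0 := by
    intro h
    have h3 := (cxf F hF).1.1 2
    rw [Nat.cast_ofNat, h, norm_zero] at h3
    norm_num at h3
  have r3' : 0 < r ^ 3 := by positivity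
  have r33 : r ≤ 3 * r := by linarith
  have cz0 : cz (0 : Pt (1 : F)) = 0 := by
    show (0 : F) / 0 = 0
    simp
  rcases eq_or_ne P 0 with rfl | hP0
  · rw [zero_add, cz0]
    refine ⟨nO_mono r33 hQ, ?_⟩
    have : cz Q - 0 - cz Q = 0 := by ring
    rw [this, norm_zero]
    exact r3'.le
  rcases eq_or_ne Q 0 with rfl | hQ0
  · rw [add_zero, cz0]
    refine ⟨nO_mono r33 hP, ?_⟩
    have : cz P - cz P - 0 = 0 := by ring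
    rw [this, norm_zero]
    exact r3'.le
  have hP1 : 1 < ‖cX P‖ ∧ ‖cz P‖ ≤ r := hP.resolve_left hP0
  have hQ1 : 1 < ‖cX Q‖ ∧ ‖cz Q‖ ≤ r := hQ.resolve_left hQ0
  rcases eq_or_ne (P + Q) 0 with hPQ | hPQ
  · rw [hPQ, cz0]
    refine ⟨Or.inl rfl, ?_⟩
    have e : Q = -P := (neg_eq_of_add_eq_zero_right hPQ).symm
    have e2 : cz Q = -cz P := by
      unfold cz
      rw [e, cX_neg, cY_neg]
      ring
    have : 0 - cz P - cz Q = 0 := by rw [e2]; ring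
    rw [this, norm_zero]
    exact r3'.le
  obtain ⟨hYP, hwP⟩ := near hr hP1.1 hP1.2
  obtain ⟨hYQ, hwQ⟩ := near hr hQ1.1 hQ1.2
  obtain ⟨hD0, hα, hβ, h1, h3⟩ := est hr0 hr hP1.2 hQ1.2 hwP hwQ (D := 1 + cz Q * (1 / cY P + 1 / cY Q))
    rfl rfl rfl
  set D : F := 1 + cz Q * (1 / cY P + 1 / cY Q) with hDdef
  set α : F := (cz P ^ 2 + cz P * cz Q + cz Q ^ 2 - (1 / cY P) ^ 2) / D with hαdef
  set β : F := 1 / cY P - α * cz P with hβdef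
  obtain ⟨c1, c2, c3⟩ := cza F 1 h2 one_ne_zero P Q hYP hYQ hPQ D α β
    (by rw [hDdef]; ring) hD0 (by rw [hαdef]; ring) hβdef
    (by rw [one_pow, one_mul]; exact h1)
  have c2' : cz (P + Q) = cz P + cz Q - 2 * α * β / (1 - α ^ 2) := by
    rw [c2]
    ring
  have h4 : ‖cz (P + Q) - cz P - cz Q‖ ≤ r ^ 3 := by
    have e : cz (P + Q) - cz P - cz Q = -(2 * α * β / (1 - α ^ 2)) := by rw [c2']; ring
    rw [e, norm_neg]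
    exact h3
  refine ⟨Or.inr ?_, h4⟩
  have r2 : r ^ 2 ≤ 1 / 100 := by nlinarith
  have r3a : r ^ 3 ≤ 1 / 100 * r := by
    have : r ^ 3 = r ^ 2 * r := by ring
    rw [this]
    nlinarith
  have h5 : ‖cz (P + Q)‖ ≤ 201 / 100 * r := by
    have e : cz (P + Q) = (cz (P + Q) - cz P - cz Q) + cz P + cz Q := by ring
    rw [e]
    refine (norm_add_le _ _).trans ?_
    refine (add_le_add (norm_add_le _ _) le_rfl).trans ?_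
    linarith [hP1.2, hQ1.2]
  refine ⟨?_, by linarith⟩
  -- the size of w
  have h6 : ‖1 / cY (P + Q)‖ ≤ 11 * r ^ 3 := by
    rw [c3]
    refine (norm_sub_le _ _).trans ?_
    rw [norm_mul]
    have h7 : ‖α‖ * ‖cz (P + Q)‖ ≤ 31 / 10 * r ^ 2 * (201 / 100 * r) :=
      mul_le_mul hα h5 (norm_nonneg _) (by positivity)
    have e : 31 / 10 * r ^ 2 * (201 / 100 * r) = 31 / 10 * (201 / 100) * r ^ 3 := by ring
    rw [e] at h7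
    linarith
  have h7 := rel_w c1
  by_contra hX
  rw [not_lt] at hX
  have hY0 : 0 < ‖1 / cY (P + Q)‖ := norm_pos_iff.2 (one_div_ne_zero c1)
  have h8 : ‖cz (P + Q)‖ ≤ ‖1 / cY (P + Q)‖ := by
    have e : cz (P + Q) = cX (P + Q) * (1 / cY (P + Q)) := by
      unfold cz
      ring
    rw [e, norm_mul]
    nlinarith
  have h9 : ‖1 / cY (P + Q)‖ ≤ ‖cz (P + Q)‖ ^ 3 + ‖cz (P + Q)‖ * ‖1 / cY (P + Q)‖ ^ 2 := by
    calc ‖1 / cY (P + Q)‖ = ‖cz (P + Q) ^ 3 - cz (P + Q) * (1 / cY (P + Q)) ^ 2‖ := congrArg _ h7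
      _ ≤ ‖cz (P + Q) ^ 3‖ + ‖cz (P + Q) * (1 / cY (P + Q)) ^ 2‖ := norm_sub_le _ _
      _ = _ := by rw [norm_pow, norm_mul, norm_pow]
  have hz0 : 0 ≤ ‖cz (P + Q)‖ := norm_nonneg _
  have hz1 : ‖cz (P + Q)‖ ≤ 3 / 10 := by linarith
  have hw1 : ‖1 / cY (P + Q)‖ ≤ 3 / 10 := by nlinarith
  have h10 : ‖cz (P + Q)‖ ^ 3 ≤ 9 / 100 * ‖1 / cY (P + Q)‖ := by
    have e : ‖cz (P + Q)‖ ^ 3 = ‖cz (P + Q)‖ ^ 2 * ‖cz (P + Q)‖ := by ring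
    rw [e]
    have : ‖cz (P + Q)‖ ^ 2 ≤ 9 / 100 := by nlinarith
    exact mul_le_mul this h8 hz0 (by norm_num)
  have h11 : ‖cz (P + Q)‖ * ‖1 / cY (P + Q)‖ ^ 2 ≤ 9 / 100 * ‖1 / cY (P + Q)‖ := by
    have e : ‖cz (P + Q)‖ * ‖1 / cY (P + Q)‖ ^ 2 =
        (‖cz (P + Q)‖ * ‖1 / cY (P + Q)‖) * ‖1 / cY (P + Q)‖ := by ring
    rw [e]
    refine mul_le_mul_of_nonneg_right ?_ hY0.le
    have : ‖cz (P + Q)‖ * ‖1 / cY (P + Q)‖ ≤ 3 / 10 * (3 / 10) :=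
      mul_le_mul hz1 hw1 hY0.le (by norm_num)
    linarith
  linarith

end Pool.Agent.WAP.H57
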